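import Pool.Agent.helper56.NZ.Spec

/-!
Project nz:, the theorem from one scale and from the scales of the conformal radii.
-/

set_option autoImplicit false

open Complex Metric Set Filter Topology MeasureTheory
open Pool.Agent.helper98.ILF Pool.Agent.helper16.Multibrot
open HY (UD T S hd UN RM VV SG Orb fz)

noncomputable section

namespace NZ

theorem FIN (hONE : ONE_stmt) (hSCL : SCL_stmt) (hSGE : HY.SGE_stmt) (hBRG : BR.BRG_stmt) :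
    FIN_stmt := by
  intro n hn r hr
  obtain ⟨c₁, C₁, hc₁, hC₁, h1⟩ := hONE n hn r hr
  obtain ⟨κ, hκ, -, h2⟩ := hSCL n (by omega)
  have hK : 0 < C₁ / (c₁ * κ) := by positivity
  refine ⟨C₁ / (c₁ * κ) + 1, by positivity, ?_⟩
  intro c hc hd
  have hint : interior (filled n c) = ∅ := (hBRG n c r (by omega) hr hc hd).2.1
  obtain ⟨k₀, hk₀⟩ := h1 c hc hd
  have hex : ∀ k : ℕ, ∃ φ : ℂ → ℂ, RM (VV n c k) 0 φ ∧ (k₀ ≤ k → ∃ s : ℕ, 1 ≤ s ∧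
      ∀ z : ℂ, ‖z‖ < c₁ * ‖deriv φ 0‖ → ‖(fz n c)^[s] z‖ ≤ C₁ * ‖deriv φ 0‖) := by
    intro k
    rcases le_or_gt k₀ k with h | h
    · obtain ⟨φ, hφ, hs⟩ := hk₀ k h
      exact ⟨φ, hφ, fun _ => hs⟩
    · obtain ⟨φ, ψ, b, hsg⟩ := hSGE n c (by omega) hc k
      exact ⟨φ, hsg.rm, fun h' => absurd h' (not_le.2 h)⟩
  choose Φ hΦ using hex
  obtain ⟨ρ₀, hρ₀, h3⟩ := h2 c hc hint Φ (fun k => (hΦ k).1) k₀
  refine ⟨c₁ * ρ₀, by positivity, fun ρ hρ hρ' => ?_⟩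
  obtain ⟨k, hk, hk1, hk2⟩ := h3 (ρ / c₁) (div_pos hρ hc₁)
    ((div_lt_iff₀ hc₁).2 (by rw [mul_comm]; exact hρ'))
  obtain ⟨s, hs, hs2⟩ := (hΦ k).2 hk
  refine ⟨s, hs, fun z hz => ?_⟩
  have h5 : ρ ≤ c₁ * ‖deriv (Φ k) 0‖ := by
    rw [div_le_iff₀ hc₁] at hk1
    rw [mul_comm]
    exact hk1
  have h7 : C₁ * ‖deriv (Φ k) 0‖ ≤ C₁ / (c₁ * κ) * ρ := by
    calc C₁ * ‖deriv (Φ k) 0‖ ≤ C₁ * (ρ / c₁ / κ) := mul_le_mul_of_nonneg_left hk2 hC₁.le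
      _ = C₁ / (c₁ * κ) * ρ := by field_simp
  calc ‖(fz n c)^[s] z‖ ≤ C₁ * ‖deriv (Φ k) 0‖ := hs2 z (lt_of_lt_of_le hz h5)
    _ ≤ C₁ / (c₁ * κ) * ρ := h7
    _ < (C₁ / (c₁ * κ) + 1) * ρ := by rw [add_mul]; linarith

end NZ
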